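import Pool.Agent.Q226.OO.Main

/-!
# Cyclic on/off polytopes with exponentially many facets (Q2: the answer is no)

The definitions are in `Pool/Agent/Q226/OO/Defs.lean`: `Params n` (the weakly monotone bounds
`α, β, γ, δ` on the cycle `ZMod n`), `Pair n` (the space `ℝ ^ (2 n)` of the pairs `(y, z)`),
`OnOff n p` (the set `Z` of the feasible 0/1-pairs), `IsFacet P F` (`F` is a facet of `P`) and
`cst n` (the constant bounds `α = β = 1`, `γ = 2`, `δ = n - 1`).

For the constant bounds `cst n` the set `Z` consists of the pairs `(y, y)` for the nonempty sets of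
places with cyclic gaps at least three. For `n = 7 k + 2` and every choice of one of two sets of
five places in each of `k` blocks of seven places we get a set `T` of `5 k + 1` places such that the
inequality `∑ t ∈ T, y t ≤ 2 k` defines a facet.
-/

set_option autoImplicit false

namespace Pool.Agent.Results.MP_7df715_lc.ExponentiallyManyFacets

open Pool.Agent.Q226.OO

/-- **The number of facets of `conv Z` is not bounded by a polynomial in `n`**, not even for constant
bounds.

1. For the constant bounds `α = β = 1`, `γ = 2`, `δ = n - 1` and `n = 7 k + 2`, `k ≥ 1`, the polytope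
`conv Z` has at least `2 ^ k` facets.
2. For every real polynomial `q` there are `n ≥ 2` and weakly monotone bounds such that `conv Z` has
more than `q n` facets. -/
theorem result :
    (∀ (k : ℕ) (hk : 1 ≤ k), ∃ 𝓕 : Finset (Set (Pair (7 * k + 2))), 𝓕.card = 2 ^ k ∧
      ∀ F ∈ 𝓕, IsFacet (convexHull ℝ (OnOff (7 * k + 2) (cst (7 * k + 2) (by omega)))) F) ∧
    ∀ q : Polynomial ℝ, ∃ (n : ℕ) (_ : 2 ≤ n) (p : Params n) (𝓕 : Finset (Set (Pair n))),
      (∀ F ∈ 𝓕, IsFacet (convexHull ℝ (OnOff n p)) F) ∧ q.eval (n : ℝ) < 𝓕.card := by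
  refine ⟨fun k hk => many hk, fun q => ?_⟩
  obtain ⟨k, hk, hq⟩ := poly_lt q
  obtain ⟨𝓕, h1, h2⟩ := many hk
  refine ⟨7 * k + 2, by omega, cst (7 * k + 2) (by omega), 𝓕, h2, ?_⟩
  rw [h1]
  push_cast at hq ⊢
  exact hq

end Pool.Agent.Results.MP_7df715_lc.ExponentiallyManyFacets
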